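import Pool.Agent.Helper65.CYC.C6b
import Pool.Agent.Helper42.CYC.StmtsC

/-!
# C6: the end of the even case (`ST_END`)
-/

set_option autoImplicit false

namespace Pool.Agent.Helper65.CYC

open Finset Polynomial Pool.Agent.Helper42.CYC

/-- The greatest power of two dividing all `p v`. -/
lemma exists_level {K : Type} (V : Finset K) (p : K → ℕ) (hV : V.Nonempty)
    (hp : ∀ v ∈ V, 1 ≤ p v) : ∃ (a : ℕ) (p' : K → ℕ), (∀ v ∈ V, p v = 2 ^ a * p' v) ∧
      (∀ v ∈ V, 1 ≤ p' v) ∧ ∃ v ∈ V, Odd (p' v) := by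
  classical
  obtain ⟨v1, hv1⟩ := hV
  set P : ℕ → Prop := fun a => ∀ v ∈ V, 2 ^ a ∣ p v with hP
  set a := Nat.findGreatest P (p v1) with ha
  have h0 : P 0 := fun v _ => by simp
  have h1 : P a := Nat.findGreatest_spec (P := P) (Nat.zero_le _) h0
  have h2 : ¬ P (a + 1) := by
    intro h
    have h3 : a + 1 ≤ p v1 := by
      have h4 : 2 ^ (a + 1) ≤ p v1 := Nat.le_of_dvd (hp v1 hv1) (h v1 hv1)
      exact (Nat.lt_two_pow_self.le).trans h4
    have h5 := Nat.le_findGreatest (P := P) h3 h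
    omega
  have h6 : ∀ v ∈ V, p v = 2 ^ a * (p v / 2 ^ a) := fun v hv => (Nat.mul_div_cancel' (h1 v hv)).symm
  refine ⟨a, fun v => p v / 2 ^ a, h6, ?_, ?_⟩
  · intro v hv
    exact Nat.div_pos (Nat.le_of_dvd (hp v hv) (h1 v hv)) (by positivity)
  · by_contra hcon
    push Not at hcon
    apply h2
    intro v hv
    have h7 : Even (p v / 2 ^ a) := Nat.not_odd_iff_even.1 (hcon v hv)
    rw [h6 v hv, pow_succ]
    exact Nat.mul_dvd_mul_left _ h7.two_dvd

section

variable {K : Type} (V : Finset K) (p : K → ℕ) (s : K → ℕ)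

/-- Sums available for the first family. -/
lemma avail_one [DecidableEq K]
    (hs1 : ∀ v ∈ V, Odd ((p v).choose (s v)))
    (hs2 : ∀ v ∈ V, ∀ j < s v, Odd ((p v - 1).choose j))
    (T : Finset K) (hTV : T ⊆ V) (ρ : K) (hρ : ρ ∈ T) (hmax : ∀ v ∈ T, s v ≤ s ρ)
    (hs0 : 1 ≤ s ρ) (N : ℕ) (hN : N + 1 ≤ ∑ v ∈ T, s v) :
    ∃ j : K → ℕ, (∀ v ∈ V, Odd ((pm p ρ v).choose (j v))) ∧ ∑ v ∈ V, j v = N := by
  have h1 : N ≤ (s ρ - 1) + ∑ v ∈ T.erase ρ, s v := by
    rw [← add_sum_erase T s hρ] at hN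
    omega
  obtain ⟨T', hT', x, hx, hNx⟩ := fill s (s ρ - 1) (T.erase ρ)
    (fun v hv => by have := hmax v (mem_of_mem_erase hv); omega) N h1
  have hρV := hTV hρ
  have hρT' : ρ ∉ T' := fun h => (notMem_erase ρ T) (hT' h)
  have hT'V : T' ⊆ V := fun v hv => hTV (mem_of_mem_erase (hT' hv))
  refine ⟨fun v => if v = ρ then x else if v ∈ T' then s v else 0, ?_, ?_⟩
  · intro v hv
    by_cases h : v = ρ
    · subst h
      simp only [if_true, pm]
      exact hs2 v hv x (by omega)
    · simp only [if_neg h, pm, Nat.sub_zero]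
      by_cases h2 : v ∈ T'
      · rw [if_pos h2]; exact hs1 v hv
      · rw [if_neg h2]; simp
  · rw [← add_sum_erase V _ hρV]
    simp only [if_true]
    rw [hNx]
    congr 1
    have h3 : ∑ v ∈ V.erase ρ, (if v = ρ then x else if v ∈ T' then s v else 0)
        = ∑ v ∈ V.erase ρ, if v ∈ T' then s v else 0 := by
      refine sum_congr rfl (fun v hv => ?_)
      rw [if_neg (ne_of_mem_erase hv)]
    rw [h3, sum_ite_mem]
    congr 1
    rw [inter_eq_right]
    intro v hv
    exact mem_erase.2 ⟨fun h => hρT' (h ▸ hv), hT'V hv⟩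

/-- Sums available for the second family. -/
lemma avail_two [DecidableEq K] (hs1 : ∀ v ∈ V, Odd ((p v).choose (s v)))
    (Od Ee : Finset K) (hOV : Od ⊆ V) (hEV : Ee ⊆ V) (hd : Disjoint Od Ee)
    (ho : ∀ v ∈ Od, s v = 1) (hE : ∀ v ∈ Ee, s v ≤ Od.card + 1) (N : ℕ)
    (hN : N ≤ Od.card + ∑ v ∈ Ee, s v) :
    ∃ j : K → ℕ, (∀ v ∈ V, Odd ((p v).choose (j v))) ∧ ∑ v ∈ V, j v = N := by
  obtain ⟨E', hE', x, hx, hNx⟩ := fill s Od.card Ee hE N hN
  obtain ⟨O', hO', hO'c⟩ := exists_subset_card_eq hx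
  have hdd : Disjoint E' O' := (hd.symm.mono_left hE').mono_right hO'
  refine ⟨fun v => if v ∈ E' ∪ O' then s v else 0, ?_, ?_⟩
  · intro v hv
    by_cases h : v ∈ E' ∪ O'
    · simp only [if_pos h]; exact hs1 v hv
    · simp only [if_neg h]; simp
  · rw [sum_ite_mem, inter_eq_right.2 (union_subset (hE'.trans hEV) (hO'.trans hOV)),
      sum_union hdd, sum_congr rfl (fun v hv => ho v (hO' hv)), hNx]
    simp only [sum_const, smul_eq_mul, mul_one, hO'c]
    omega

end

/-- **C6** -/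
theorem st_end : ST_END := by
  classical
  intro K _ _ V p Mi h0 hp hMV hMi H hH hI hII
  have fact2 : Fact (Nat.Prime 2) := ⟨Nat.prime_two⟩
  obtain ⟨a, p', hpp, hp', v0, hv0, hv0o⟩ := exists_level V p (hMi.mono hMV) hp
  set F : K[X] := ∏ v ∈ V, (1 - C (v ^ 2) * X) ^ (p' v) with hF
  have hFc : F.coeff 0 = 1 := by
    rw [coeff_zero_eq_eval_zero, hF, eval_prod]
    simp
  have hF0 : PowerSeries.constantCoeff (F : PowerSeries K) ≠ 0 := by
    rw [← PowerSeries.coeff_zero_eq_constantCoeff_apply, Polynomial.coeff_coe, hFc]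
    exact one_ne_zero
  set G : PowerSeries K := (F : PowerSeries K)⁻¹ with hG
  have hGF : G * (F : PowerSeries K) = 1 := PowerSeries.inv_mul_cancel _ hF0
  have hG0 : PowerSeries.coeff 0 G = 1 := by
    have h1 := congrArg (PowerSeries.coeff 0) hGF
    rw [PowerSeries.coeff_mul] at h1
    simpa [Polynomial.coeff_coe, hFc] using h1
  have hHG : H = G ^ (2 ^ a) := by
    have h1 : ∏ v ∈ V, (1 - PowerSeries.C (v ^ 2) * PowerSeries.X) ^ (p v)
        = (F : PowerSeries K) ^ (2 ^ a) := by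
      have h2 : (F : PowerSeries K) = ∏ v ∈ V,
          (1 - PowerSeries.C (v ^ 2) * PowerSeries.X : PowerSeries K) ^ (p' v) := by
        rw [hF]
        have h3 := map_prod (Polynomial.coeToPowerSeries.ringHom (R := K))
          (fun v => (1 - C (v ^ 2) * X : K[X]) ^ (p' v)) V
        simp only [Polynomial.coeToPowerSeries.ringHom_apply] at h3
        rw [h3]
        refine prod_congr rfl (fun v _ => ?_)
        rw [Polynomial.coe_pow, Polynomial.coe_sub, Polynomial.coe_mul, Polynomial.coe_one,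
          Polynomial.coe_C, Polynomial.coe_X]
      rw [h2, ← prod_pow]
      refine prod_congr rfl (fun v hv => ?_)
      rw [hpp v hv, ← pow_mul, mul_comm (2 ^ a)]
    rw [h1] at hH
    have h4 : G ^ (2 ^ a) * (F : PowerSeries K) ^ (2 ^ a) = 1 := by
      rw [← mul_pow, hGF, one_pow]
    calc H = H * ((F : PowerSeries K) ^ (2 ^ a) * G ^ (2 ^ a)) := by
          rw [mul_comm ((F : PowerSeries K) ^ (2 ^ a)), h4, mul_one]
      _ = G ^ (2 ^ a) := by rw [← mul_assoc, hH, one_mul]
  have hq0 : 0 < 2 ^ a := by positivity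
  have hcH : ∀ n, PowerSeries.coeff n H
      = if 2 ^ a ∣ n then (PowerSeries.coeff (n / 2 ^ a) G) ^ (2 ^ a) else 0 := by
    intro n
    rw [hHG, coeff_pow_two_pow]
  -- the first family at level `q`
  have hI' : ∀ ρ ∈ Mi, ∀ j : K → ℕ, (∀ v ∈ V, Odd ((pm p' ρ v).choose (j v))) →
      ∀ y, ∑ v ∈ V, j v + 1 = 2 * y → PowerSeries.coeff y G = 0 := by
    intro ρ hρ j hj y hy
    have h1 := hI ρ hρ (fun v => 2 ^ a * j v + if v = ρ then 2 ^ a - 1 else 0) ?_ (2 ^ a * y) ?_
    · rw [hcH, if_pos (dvd_mul_right _ _), Nat.mul_div_cancel_left _ hq0] at h1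
      exact pow_eq_zero_iff (hq0.ne') |>.1 h1
    · intro v hv
      by_cases h : v = ρ
      · subst h
        have h2 := hj v hv
        simp only [pm, if_true] at h2 ⊢
        have h3 : p v - 1 = 2 ^ a * (p' v - 1) + (2 ^ a - 1) := by
          have h4 := hp' v hv
          obtain ⟨t, ht⟩ : ∃ t, p' v = t + 1 := ⟨p' v - 1, by omega⟩
          rw [hpp v hv, ht, Nat.add_sub_cancel, mul_add, mul_one]
          omega
        rw [h3, choose_pow_mul_add]
        exact h2
      · have h2 := hj v hv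
        simp only [pm, if_neg h, Nat.sub_zero, add_zero] at h2 ⊢
        rw [hpp v hv, choose_pow_mul]
        exact h2
    · rw [sum_add_distrib, ← mul_sum, sum_ite_eq' V ρ, if_pos (hMV hρ)]
      have : 2 * (2 ^ a * y) = 2 ^ a * (∑ v ∈ V, j v + 1) := by rw [hy]; ring
      rw [this, mul_add, mul_one]
      omega
  -- the second family at level `q`
  have hII' : ∀ j : K → ℕ, (∀ v ∈ V, Odd ((p' v).choose (j v))) →
      Even (2 ^ a * ∑ v ∈ V, j v) →
      (∀ y, 0 < y → 2 * y ≤ ∑ v ∈ V, j v → PowerSeries.coeff y G = 0) →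
      ∑ ρ ∈ Mi, ρ ^ (2 ^ a * (∑ v ∈ V, j v) + 1) = 0 := by
    intro j hj he hz
    obtain ⟨y, hy⟩ := he
    have h1 := hII (fun v => 2 ^ a * j v) (fun v hv => by
      rw [hpp v hv, choose_pow_mul]; exact hj v hv) y (by rw [← mul_sum, hy]; ring)
    rw [sum_eq_single_of_mem ((0, y) : ℕ × ℕ) (by simp) ?_] at h1
    · rw [hcH, if_pos (dvd_zero _), Nat.zero_div, hG0, one_pow, one_mul] at h1
      rw [hy, ← two_mul]
      exact h1
    · rintro ⟨x1, x2⟩ hx hne
      have hx' : x1 + x2 = y := by simpa using hx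
      have hx1 : 0 < x1 := by
        rcases Nat.eq_zero_or_pos x1 with h | h
        · exact absurd (by rw [h] at hx'; simp only [h]; rw [← hx']; simp) hne
        · exact h
      simp only
      rw [hcH]
      split_ifs with hd
      · obtain ⟨t, ht⟩ := hd
        rw [ht, Nat.mul_div_cancel_left _ hq0, hz t, zero_pow hq0.ne', zero_mul]
        · rcases Nat.eq_zero_or_pos t with h | h
          · rw [h, mul_zero] at ht; omega
          · exact h
        · have h2 : 2 ^ a * (2 * t) ≤ 2 ^ a * ∑ v ∈ V, j v := by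
            rw [hy]
            have : 2 ^ a * (2 * t) = 2 * x1 := by rw [ht]; ring
            omega
          exact Nat.le_of_mul_le_mul_left h2 hq0
      · rw [zero_mul]
  -- the lowest bits
  set s : K → ℕ := fun v => 2 ^ (padicValNat 2 (p' v)) with hs
  have hsu : ∀ v ∈ V, ∃ u, Odd u ∧ p' v = s v * u := by
    intro v hv
    have h1 : p' v ≠ 0 := by have := hp' v hv; omega
    refine ⟨p' v / 2 ^ (padicValNat 2 (p' v)), ?_, ?_⟩
    · rw [← Nat.not_even_iff_odd, even_iff_two_dvd]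
      intro h2
      have h3 : 2 ^ (padicValNat 2 (p' v) + 1) ∣ p' v := by
        rw [pow_succ]
        have h4 := Nat.mul_dvd_mul_left (2 ^ (padicValNat 2 (p' v))) h2
        rwa [Nat.mul_div_cancel' pow_padicValNat_dvd] at h4
      exact pow_succ_padicValNat_not_dvd h1 h3
    · exact (Nat.mul_div_cancel' pow_padicValNat_dvd).symm
  have hs0 : ∀ v, 1 ≤ s v := fun v => Nat.one_le_two_pow
  have hs1 : ∀ v ∈ V, Odd ((p' v).choose (s v)) := by
    intro v hv
    obtain ⟨u, hu, h1⟩ := hsu v hv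
    have h2 := (choose_pow_mul (padicValNat 2 (p' v)) u 1).2 (by rwa [Nat.choose_one_right])
    rw [mul_one] at h2
    rw [h1]
    exact h2
  have hs2 : ∀ v ∈ V, ∀ j < s v, Odd ((p' v - 1).choose j) := by
    intro v hv j hj
    obtain ⟨u, hu, h1⟩ := hsu v hv
    obtain ⟨t, ht⟩ : ∃ t, u = t + 1 := ⟨u - 1, by have := hu.pos; omega⟩
    have h2 : p' v - 1 = s v * t + (s v - 1) := by
      rw [h1, ht, mul_add, mul_one]
      have := hs0 v
      omega
    rw [h2]
    exact choose_pow_sub_one _ t j hj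
  have hsodd : ∀ v ∈ V, Odd (p' v) → s v = 1 := by
    intro v hv h
    obtain ⟨u, hu, h1⟩ := hsu v hv
    rw [h1, Nat.odd_mul] at h
    simp only [hs] at h ⊢
    rcases Nat.eq_zero_or_pos (padicValNat 2 (p' v)) with h2 | h2
    · rw [h2, pow_zero]
    · exfalso
      have h3 : Even (2 ^ (padicValNat 2 (p' v))) := (Nat.even_pow.2 ⟨even_two, h2.ne'⟩)
      exact (Nat.not_even_iff_odd.2 h.1) h3
  set Od : Finset K := V.filter (fun v => Odd (p' v)) with hOd
  set Ee : Finset K := Mi.filter (fun v => ¬ Odd (p' v)) with hEe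
  have hOV : Od ⊆ V := filter_subset _ _
  have hEV : Ee ⊆ V := (filter_subset _ _).trans hMV
  have hdis : Disjoint Od Ee := by
    rw [disjoint_left]
    intro v h1 h2
    exact (mem_filter.1 h2).2 (mem_filter.1 h1).2
  have hOds : ∀ v ∈ Od, s v = 1 := fun v hv => hsodd v (hOV hv) (mem_filter.1 hv).2
  set T : Finset K := Od ∪ Ee with hT
  have hTV : T ⊆ V := union_subset hOV hEV
  have hMT : Mi ⊆ T := by
    intro v hv
    by_cases h : Odd (p' v)
    · exact mem_union_left _ (mem_filter.2 ⟨hMV hv, h⟩)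
    · exact mem_union_right _ (mem_filter.2 ⟨hv, h⟩)
  have hLsum : ∑ v ∈ T, s v = Od.card + ∑ v ∈ Ee, s v := by
    rw [hT, sum_union hdis, sum_congr rfl hOds]
    simp
  have hLcard : Mi.card ≤ ∑ v ∈ T, s v := by
    calc Mi.card ≤ T.card := card_le_card hMT
      _ = ∑ v ∈ T, 1 := by simp
      _ ≤ ∑ v ∈ T, s v := sum_le_sum (fun v _ => hs0 v)
  -- (a)
  have hA : ∀ y, 0 < y → 2 * y ≤ ∑ v ∈ T, s v → PowerSeries.coeff y G = 0 := by
    obtain ⟨ρ, hρ, hmax⟩ := exists_max_image Mi s hMi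
    intro y hy hyL
    obtain ⟨j, hj1, hj2⟩ := avail_one V p' s hs1 hs2 T hTV ρ (hMT hρ) (by
      intro v hv
      rcases mem_union.1 hv with h | h
      · rw [hOds v h]; exact hs0 ρ
      · exact hmax v (filter_subset _ _ h)) (hs0 ρ) (2 * y - 1) (by omega)
    exact hI' ρ hρ j hj1 y (by omega)
  have ho1 : 1 ≤ Od.card := card_pos.2 ⟨v0, mem_filter.2 ⟨hv0, hv0o⟩⟩
  -- (b)
  have hB : ∀ v ∈ Ee, s v ≤ Od.card + 1 := by
    intro v hv
    by_contra hcon
    push Not at hcon
    have h1 : 2 * Od.card ≤ ∑ v ∈ T, s v := by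
      rw [hLsum]
      have := single_le_sum (f := s) (fun u _ => Nat.zero_le _) hv
      omega
    have h2 : (PowerSeries.X : PowerSeries K) ^ (Od.card + 1) ∣ 1 - G := by
      rw [PowerSeries.X_pow_dvd_iff]
      intro m hm
      rcases Nat.eq_zero_or_pos m with h | h
      · subst h
        rw [map_sub, hG0]; simp
      · rw [map_sub, hA m h (by omega), PowerSeries.coeff_one, if_neg h.ne', sub_zero]
    have h3 : (X : K[X]) ^ (Od.card + 1) ∣ F - 1 := by
      rw [X_pow_dvd_iff]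
      intro d hd
      have h4 : (F : PowerSeries K) - 1 = (1 - G) * (F : PowerSeries K) := by
        rw [sub_mul, hGF, one_mul]
      have h5 : (PowerSeries.X : PowerSeries K) ^ (Od.card + 1) ∣ (F : PowerSeries K) - 1 := by
        rw [h4]; exact h2.mul_right _
      have h6 := (PowerSeries.X_pow_dvd_iff.1 h5) d hd
      rw [map_sub, Polynomial.coeff_coe] at h6
      rw [coeff_sub, Polynomial.coeff_one, ← PowerSeries.coeff_one]
      exact h6
    obtain ⟨R, hR⟩ := h3
    set Wp : K[X] := ∏ v ∈ V, (1 - C (v ^ 2) * X) ^ (p' v / 2) with hWp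
    have h7 : F = (∏ v ∈ Od, (1 - C (v ^ 2) * X : K[X])) * Wp ^ 2 := by
      rw [hF, hWp, ← prod_pow, hOd, prod_filter, ← prod_mul_distrib]
      refine prod_congr rfl (fun v _ => ?_)
      split_ifs with h
      · rw [← pow_mul, ← pow_succ']
        congr 1
        obtain ⟨t, ht⟩ := h
        omega
      · rw [one_mul, ← pow_mul]
        congr 1
        have := Nat.not_odd_iff_even.1 h
        obtain ⟨t, ht⟩ := this
        omega
    have h8 : (∏ v ∈ Od, (1 - C (v ^ 2) * X : K[X])).natDegree ≤ Od.card := by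
      refine (natDegree_prod_le _ _).trans ?_
      calc ∑ v ∈ Od, (1 - C (v ^ 2) * X : K[X]).natDegree ≤ ∑ v ∈ Od, 1 := by
            refine sum_le_sum (fun v _ => ?_)
            refine (natDegree_sub_le _ _).trans ?_
            rw [natDegree_one]
            exact max_le (Nat.zero_le _) ((natDegree_C_mul_le _ _).trans natDegree_X_le)
        _ = Od.card := by simp
    have h9 : Wp.coeff 0 ≠ 0 := by
      rw [coeff_zero_eq_eval_zero, hWp, eval_prod]
      simp
    rw [h7] at hR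
    exact derivative_prod_ne_zero Od (fun h => h0 (hOV h)) (card_pos.1 ho1)
      (derivative_eq_zero_of_dvd _ Wp R Od.card ho1 h8 h9 hR)
  -- (c)
  have hC : ∀ N, N ≤ ∑ v ∈ T, s v → Even (2 ^ a * N) → ∑ ρ ∈ Mi, ρ ^ (2 ^ a * N + 1) = 0 := by
    intro N hN he
    obtain ⟨j, hj1, hj2⟩ := avail_two V p' s hs1 Od Ee hOV hEV hdis hOds hB N (by rwa [← hLsum])
    have h1 := hII' j hj1 (by rwa [hj2]) (fun y hy hy2 => hA y hy (by omega))
    rwa [hj2] at h1
  -- (d)
  refine exists_sum_ne_zero Mi hMi (fun h => h0 (hMV h)) a ?_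
  intro i
  induction i using Nat.strong_induction_on with
  | _ i ih =>
    intro hi
    by_cases he : Even (2 ^ a * i)
    · exact hC i (by omega) he
    · have h1 : ¬ Even i := fun h => he (h.mul_left _)
      have h2 : a = 0 := by
        by_contra h
        exact he ((Nat.even_pow.2 ⟨even_two, h⟩).mul_right _)
      subst h2
      obtain ⟨t, ht⟩ := Nat.not_even_iff_odd.1 h1
      have h3 := ih t (by omega) (by omega)
      simp only [pow_zero, one_mul] at h3 ⊢
      have h4 : ∑ ρ ∈ Mi, ρ ^ (i + 1) = (∑ ρ ∈ Mi, ρ ^ (t + 1)) ^ 2 := by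
        rw [sum_pow_char]
        refine sum_congr rfl (fun ρ _ => ?_)
        rw [← pow_mul]
        congr 1
        omega
      rw [h4, h3]
      ring

end Pool.Agent.Helper65.CYC
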