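import Mathlib

/-!
# C6, preparations: binomial parity, interval filling, the inverse of a `q`-th power
-/

set_option autoImplicit false

namespace Pool.Agent.Helper65.CYC

open Finset

/-! ## Binomial parity -/

lemma choose_two_mul (n k : ℕ) : Odd ((2 * n).choose (2 * k)) ↔ Odd (n.choose k) := by
  have h := Choose.choose_modEq_choose_mod_mul_choose_div_nat (p := 2) (n := 2 * n) (k := 2 * k)
  have h1 : (2 * n) % 2 = 0 := by omega
  have h2 : (2 * k) % 2 = 0 := by omega
  have h3 : (2 * n) / 2 = n := by omega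
  have h4 : (2 * k) / 2 = k := by omega
  rw [h1, h2, h3, h4, Nat.choose_self, one_mul] at h
  unfold Nat.ModEq at h
  rw [Nat.odd_iff, Nat.odd_iff, h]

lemma choose_two_mul_add_one (n k e : ℕ) (he : e ≤ 1) :
    Odd ((2 * n + 1).choose (2 * k + e)) ↔ Odd (n.choose k) := by
  have h := Choose.choose_modEq_choose_mod_mul_choose_div_nat (p := 2) (n := 2 * n + 1)
    (k := 2 * k + e)
  have h1 : (2 * n + 1) % 2 = 1 := by omega
  have h2 : (2 * k + e) % 2 = e := by omega
  have h3 : (2 * n + 1) / 2 = n := by omega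
  have h4 : (2 * k + e) / 2 = k := by omega
  have h5 : Nat.choose 1 e = 1 := by interval_cases e <;> rfl
  rw [h1, h2, h3, h4, h5, one_mul] at h
  unfold Nat.ModEq at h
  rw [Nat.odd_iff, Nat.odd_iff, h]

/-- `C(q n, q k)` and `C(n, k)` have the same parity for `q = 2 ^ a`. -/
lemma choose_pow_mul (a n k : ℕ) : Odd ((2 ^ a * n).choose (2 ^ a * k)) ↔ Odd (n.choose k) := by
  induction a with
  | zero => simp
  | succ a ih =>
    rw [← ih, pow_succ', mul_assoc, mul_assoc, choose_two_mul]

/-- `C(q n + (q-1), q k + (q-1))` and `C(n, k)` have the same parity for `q = 2 ^ a`. -/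
lemma choose_pow_mul_add (a n k : ℕ) :
    Odd ((2 ^ a * n + (2 ^ a - 1)).choose (2 ^ a * k + (2 ^ a - 1))) ↔ Odd (n.choose k) := by
  induction a with
  | zero => simp
  | succ a ih =>
    have h0 : 0 < 2 ^ a := by positivity
    have h1 : 2 ^ (a + 1) * n + (2 ^ (a + 1) - 1) = 2 * (2 ^ a * n + (2 ^ a - 1)) + 1 := by
      rw [pow_succ', mul_assoc]; omega
    have h2 : 2 ^ (a + 1) * k + (2 ^ (a + 1) - 1) = 2 * (2 ^ a * k + (2 ^ a - 1)) + 1 := by
      rw [pow_succ', mul_assoc]; omega
    rw [h1, h2, choose_two_mul_add_one _ _ _ le_rfl, ih]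

/-- `C(q n + (q-1), j)` is odd for all `j < q`. -/
lemma choose_pow_sub_one (a n j : ℕ) (hj : j < 2 ^ a) :
    Odd ((2 ^ a * n + (2 ^ a - 1)).choose j) := by
  induction a generalizing j with
  | zero =>
    have : j = 0 := by simpa using hj
    subst this; simp
  | succ a ih =>
    have h0 : 0 < 2 ^ a := by positivity
    have h1 : 2 ^ (a + 1) * n + (2 ^ (a + 1) - 1) = 2 * (2 ^ a * n + (2 ^ a - 1)) + 1 := by
      rw [pow_succ', mul_assoc]; omega
    have h2 : j = 2 * (j / 2) + j % 2 := by omega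
    rw [h1, h2, choose_two_mul_add_one _ _ _ (by omega)]
    apply ih
    rw [pow_succ'] at hj
    omega

/-! ## Interval filling -/

/-- Subset sums fill an interval. -/
lemma fill {ι : Type*} [DecidableEq ι] (s : ι → ℕ) (X0 : ℕ) (T : Finset ι)
    (hs : ∀ v ∈ T, s v ≤ X0 + 1) (N : ℕ) (hN : N ≤ X0 + ∑ v ∈ T, s v) :
    ∃ T' ⊆ T, ∃ x ≤ X0, N = x + ∑ v ∈ T', s v := by
  induction T using Finset.induction_on generalizing N with
  | empty => exact ⟨∅, subset_rfl, N, by simpa using hN, by simp⟩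
  | insert v T hv ih =>
    rw [sum_insert hv] at hN
    by_cases h : N ≤ X0 + ∑ u ∈ T, s u
    · obtain ⟨T', h1, x, h2, h3⟩ := ih (fun u hu => hs u (mem_insert_of_mem hu)) N h
      exact ⟨T', h1.trans (subset_insert _ _), x, h2, h3⟩
    · have h4 := hs v (mem_insert_self _ _)
      obtain ⟨T', h1, x, h2, h3⟩ := ih (fun u hu => hs u (mem_insert_of_mem hu)) (N - s v)
        (by omega)
      refine ⟨insert v T', insert_subset_insert _ h1, x, h2, ?_⟩
      rw [sum_insert (fun h => hv (h1 h))]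
      omega

end Pool.Agent.Helper65.CYC
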