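import Pool.Agent.Helper65.CYC.C6a

/-!
# C6: powers of series, the derivative argument, the final linear functional
-/

set_option autoImplicit false

namespace Pool.Agent.Helper65.CYC

open Finset Polynomial

variable {K : Type} [Field K]

lemma coeff_pow_two_pow [CharP K 2] (G : PowerSeries K) (a n : ℕ) :
    PowerSeries.coeff n (G ^ (2 ^ a))
      = if 2 ^ a ∣ n then (PowerSeries.coeff (n / 2 ^ a) G) ^ (2 ^ a) else 0 := by
  have : Fact (Nat.Prime 2) := ⟨Nat.prime_two⟩
  have h := MvPowerSeries.map_iterateFrobenius_expand (σ := Unit) (R := K) 2 two_ne_zero G a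
  have h2 : G ^ (2 ^ a) = PowerSeries.map (iterateFrobenius K 2 a)
      (PowerSeries.expand (2 ^ a) (pow_ne_zero a two_ne_zero) G) := h.symm
  rw [h2, PowerSeries.coeff_map, PowerSeries.coeff_expand]
  split_ifs
  · rw [iterateFrobenius_def]
  · rw [map_zero]

/-- The product of the linear factors of odd multiplicity has a nonzero derivative. -/
lemma derivative_prod_ne_zero [CharP K 2] (O : Finset K) (h0 : (0 : K) ∉ O)
    (hO : O.Nonempty) : derivative (∏ v ∈ O, (1 - C (v ^ 2) * X : K[X])) ≠ 0 := by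
  classical
  obtain ⟨v, hv⟩ := hO
  have hv0 : v ≠ 0 := fun h => h0 (h ▸ hv)
  intro h
  rw [← mul_prod_erase O _ hv] at h
  have h1 := congrArg (Polynomial.eval ((v ^ 2)⁻¹)) h
  rw [derivative_mul] at h1
  simp only [eval_add, eval_mul, derivative_sub, derivative_one, derivative_C_mul, derivative_X,
    mul_one, zero_sub, eval_neg, eval_sub, eval_one, eval_C, eval_X, eval_zero] at h1
  rw [mul_inv_cancel₀ (pow_ne_zero 2 hv0), sub_self, zero_mul, add_zero, eval_prod] at h1
  rcases mul_eq_zero.1 h1 with h2 | h2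
  · exact pow_ne_zero 2 hv0 (neg_eq_zero.1 h2)
  · rw [prod_eq_zero_iff] at h2
    obtain ⟨w, hw, h3⟩ := h2
    rw [mem_erase] at hw
    simp only [eval_sub, eval_one, eval_mul, eval_C, eval_X] at h3
    have h4 : w ^ 2 = v ^ 2 := by
      have h5 : w ^ 2 * (v ^ 2)⁻¹ = 1 := (sub_eq_zero.1 h3).symm
      rwa [← div_eq_mul_inv, div_eq_one_iff_eq (pow_ne_zero 2 hv0)] at h5
    exact hw.1 (frobenius_inj K 2 h4)

/-- If `O * W²` is `1` modulo `X^(o+1)`, `o` the degree of `O`, then the derivative of `O` is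
zero. -/
lemma derivative_eq_zero_of_dvd [CharP K 2] (O W R : K[X]) (o : ℕ) (ho : 1 ≤ o)
    (hO : O.natDegree ≤ o) (hW : W.coeff 0 ≠ 0)
    (h : O * W ^ 2 - 1 = X ^ (o + 1) * R) : derivative O = 0 := by
  have h1 : derivative (W ^ 2) = 0 := by
    rw [pow_two, derivative_mul, mul_comm W, CharTwo.add_self_eq_zero]
  have h2 : derivative O * W ^ 2 = X ^ o * (C ((o : K) + 1) * R + X * derivative R) := by
    have h3 := congrArg derivative h
    rw [derivative_sub, derivative_one, sub_zero, derivative_mul, h1, mul_zero, add_zero,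
      derivative_mul, derivative_X_pow] at h3
    rw [h3]
    simp only [Nat.add_sub_cancel, Nat.cast_add, Nat.cast_one, pow_succ]
    ring
  have h4 : (X : K[X]) ^ o ∣ derivative O := by
    apply Prime.pow_dvd_of_dvd_mul_right (prime_X (R := K)) o (b := W ^ 2)
    · intro h5
      have h6 := prime_X.dvd_of_dvd_pow h5
      rw [X_dvd_iff] at h6
      exact hW h6
    · exact ⟨_, h2⟩
  by_contra h5
  have h6 := Polynomial.natDegree_le_of_dvd h4 h5
  rw [natDegree_X_pow] at h6
  have h7 := natDegree_derivative_le O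
  omega

/-- The last step: distinct nonzero elements have a nonzero weighted power sum. -/
lemma exists_sum_ne_zero [CharP K 2] (M : Finset K) (hM : M.Nonempty) (h0 : (0 : K) ∉ M) (a : ℕ)
    (h : ∀ i < M.card, ∑ ρ ∈ M, ρ ^ (2 ^ a * i + 1) = 0) : False := by
  classical
  obtain ⟨ρ0, hρ⟩ := hM
  have hρ0 : ρ0 ≠ 0 := fun h => h0 (h ▸ hρ)
  have : Fact (Nat.Prime 2) := ⟨Nat.prime_two⟩
  set P : K[X] := ∏ ρ ∈ M.erase ρ0, (X - C (ρ ^ 2 ^ a)) with hP
  have hdeg : P.natDegree = M.card - 1 := by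
    rw [hP, natDegree_prod_of_monic _ _ (fun i _ => monic_X_sub_C _)]
    rw [sum_congr rfl (fun i _ => natDegree_X_sub_C (i ^ 2 ^ a)), sum_const, card_erase_of_mem hρ]
    simp
  have hc : 0 < M.card := card_pos.2 ⟨ρ0, hρ⟩
  have h1 : ∑ ρ ∈ M, ρ * P.eval (ρ ^ 2 ^ a) = 0 := by
    have h2 : ∀ ρ : K, ρ * P.eval (ρ ^ 2 ^ a)
        = ∑ i ∈ range M.card, P.coeff i * ρ ^ (2 ^ a * i + 1) := by
      intro ρ
      rw [eval_eq_sum_range' (n := M.card) (by omega), mul_sum]
      refine sum_congr rfl (fun i _ => ?_)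
      rw [← pow_mul, pow_succ]
      ring
    simp only [h2]
    rw [sum_comm]
    refine sum_eq_zero (fun i hi => ?_)
    rw [← mul_sum, h i (mem_range.1 hi), mul_zero]
  have h3 : ∀ ρ ∈ M, ρ ≠ ρ0 → ρ * P.eval (ρ ^ 2 ^ a) = 0 := by
    intro ρ h4 h5
    rw [hP, eval_prod, prod_eq_zero (mem_erase.2 ⟨h5, h4⟩), mul_zero]
    simp
  rw [sum_eq_single_of_mem ρ0 hρ h3] at h1
  rcases mul_eq_zero.1 h1 with h4 | h4
  · exact hρ0 h4
  · rw [hP, eval_prod, prod_eq_zero_iff] at h4
    obtain ⟨ρ, h5, h6⟩ := h4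
    rw [mem_erase] at h5
    simp only [eval_sub, eval_X, eval_C] at h6
    have h7 : ρ0 ^ 2 ^ a = ρ ^ 2 ^ a := sub_eq_zero.1 h6
    exact h5.1 (iterateFrobenius_inj K 2 a (by rw [iterateFrobenius_def, iterateFrobenius_def, h7]))

end Pool.Agent.Helper65.CYC
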