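import Mathlib

/-!
# Two translates of one subgroup of even order of a cyclic group have no transversal
-/

set_option autoImplicit false

namespace Pool.Agent.Helper65.CYC

open Finset

/-- The sum of the elements of a subgroup of even order of a cyclic group is not zero. -/
lemma sum_subgroup_ne_zero {n : ℕ} [NeZero n] (H : AddSubgroup (ZMod n)) (S : Finset (ZMod n))
    (hS : ∀ x, x ∈ S ↔ x ∈ H) (he : Even (Nat.card H)) : ∑ x ∈ S, x ≠ 0 := by
  classical
  have hcard : S.card = Nat.card H := by
    have h1 : Nat.card H = (Set.toFinset (H : Set (ZMod n))).card :=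
      Nat.card_eq_card_toFinset (H : Set (ZMod n))
    rw [h1]
    congr 1
    ext x
    rw [hS, Set.mem_toFinset, SetLike.mem_coe]
  have hdvd : Nat.card H ∣ n := by
    have h1 := AddSubgroup.card_addSubgroup_dvd_card H
    rwa [Nat.card_zmod] at h1
  have hn : 0 < n := Nat.pos_of_ne_zero (NeZero.ne n)
  obtain ⟨c, hc⟩ := hdvd
  obtain ⟨t, ht⟩ := he
  have hcpos : 0 < c := by
    rcases Nat.eq_zero_or_pos c with h | h
    · rw [h, mul_zero] at hc; omega
    · exact h
  have htpos : 0 < t := by
    rcases Nat.eq_zero_or_pos t with h | h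
    · rw [ht, h] at hc; simp at hc; omega
    · exact h
  -- the involution
  set e : ZMod n := ((t * c : ℕ) : ZMod n) with he
  have hn2 : n = 2 * (t * c) := by rw [hc, ht]; ring
  have he2 : e + e = 0 := by
    rw [he, ← Nat.cast_add, ← two_mul, ← hn2, ZMod.natCast_self]
  have he0 : e ≠ 0 := by
    rw [he, Ne, ZMod.natCast_eq_zero_iff]
    intro h
    have h1 := Nat.le_of_dvd (Nat.mul_pos htpos hcpos) h
    have : 0 < t * c := Nat.mul_pos htpos hcpos
    omega
  have hinv : ∀ x : ZMod n, x + x = 0 → x = 0 ∨ x = e := by
    intro x hx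
    have h1 : ((2 * x.val : ℕ) : ZMod n) = 0 := by
      rw [Nat.cast_mul, ZMod.natCast_zmod_val]
      push_cast
      rw [two_mul]; exact hx
    rw [ZMod.natCast_eq_zero_iff] at h1
    obtain ⟨d, hd⟩ := h1
    have h2 := ZMod.val_lt x
    have h3 : d < 2 := by
      by_contra h4
      push Not at h4
      have : n * 2 ≤ n * d := Nat.mul_le_mul_left n h4
      omega
    interval_cases d
    · left
      have h5 : x.val = 0 := by omega
      rwa [ZMod.val_eq_zero] at h5
    · right
      have h5 : x.val = t * c := by omega
      rw [he, ← h5, ZMod.natCast_zmod_val]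
  have heH : e ∈ H := by
    by_contra hcon
    -- otherwise negation has exactly one fixed point in `S`
    have h1 : (S.filter (fun x => x = -x)).card = 1 := by
      have h2 : S.filter (fun x => x = -x) = {0} := by
        ext x
        simp only [mem_filter, mem_singleton]
        constructor
        · rintro ⟨h3, h4⟩
          rcases hinv x (by rw [eq_neg_iff_add_eq_zero] at h4; exact h4) with h5 | h5
          · exact h5
          · exact absurd ((hS x).1 h3) (h5 ▸ hcon)
        · rintro rfl
          exact ⟨(hS 0).2 H.zero_mem, by simp⟩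
      rw [h2, card_singleton]
    have h6 : Even ((S.filter (fun x => ¬ x = -x)).card) := by
      have h7 := Finset.sum_involution (s := S.filter (fun x => ¬ x = -x))
        (f := fun _ => (1 : ZMod 2)) (fun x _ => -x) (by intro x _; decide)
        (by
          intro x hx _
          intro h8
          exact (mem_filter.1 hx).2 h8.symm)
        (by
          intro x hx
          rw [mem_filter] at hx ⊢
          refine ⟨(hS _).2 (H.neg_mem ((hS _).1 hx.1)), ?_⟩
          intro h8
          apply hx.2
          rw [neg_neg] at h8
          exact h8.symm)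
        (by intro x _; simp)
      rw [sum_const, nsmul_eq_mul, mul_one, ZMod.natCast_eq_zero_iff_even] at h7
      exact h7
    have h9 := Finset.card_filter_add_card_filter_not (s := S) (fun x : ZMod n => x = -x)
    rw [h1] at h9
    obtain ⟨u, hu⟩ := h6
    rw [hcard, ht] at h9
    omega
  have hsum : ∑ x ∈ S, x = e := by
    rw [← Finset.sum_filter_add_sum_filter_not S (fun x => x = -x)]
    have h1 : ∑ x ∈ S.filter (fun x => ¬ x = -x), x = 0 := by
      refine Finset.sum_involution (fun x _ => -x) (by intro x _; simp)
        (by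
          intro x hx _
          intro h8
          exact (mem_filter.1 hx).2 h8.symm)
        (by
          intro x hx
          rw [mem_filter] at hx ⊢
          refine ⟨(hS _).2 (H.neg_mem ((hS _).1 hx.1)), ?_⟩
          intro h8
          apply hx.2
          rw [neg_neg] at h8
          exact h8.symm)
        (by intro x _; simp)
    have h2 : S.filter (fun x => x = -x) = {0, e} := by
      ext x
      simp only [mem_filter, mem_insert, mem_singleton]
      constructor
      · rintro ⟨_, h4⟩
        exact hinv x (by rw [eq_neg_iff_add_eq_zero] at h4; exact h4)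
      · rintro (rfl | rfl)
        · exact ⟨(hS 0).2 H.zero_mem, by simp⟩
        · exact ⟨(hS _).2 heH, by rw [eq_neg_iff_add_eq_zero]; exact he2⟩
    rw [h1, h2, sum_pair he0.symm, zero_add, add_zero]
  rw [hsum]
  exact he0

/-- Translates of one subgroup of even order of a cyclic group have no transversal. -/
theorem no_transversal {n : ℕ} [NeZero n] (A B : Finset (ZMod n)) (H : AddSubgroup (ZMod n))
    (he : Even (Nat.card H)) (a b : ZMod n) (hA : ∀ x, x ∈ A ↔ x - a ∈ H)
    (hB : ∀ x, x ∈ B ↔ x - b ∈ H) (f : ZMod n → ZMod n)
    (hf : Set.BijOn f (A : Set (ZMod n)) (B : Set (ZMod n)))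
    (hinj : Set.InjOn (fun x => x + f x) (A : Set (ZMod n))) : False := by
  classical
  set S : Finset (ZMod n) := univ.filter (fun x => x ∈ H) with hS
  have hSm : ∀ x, x ∈ S ↔ x ∈ H := by intro x; simp [hS]
  have hAS : A = S.image (fun x => x + a) := by
    ext x
    rw [hA, mem_image]
    constructor
    · intro h; exact ⟨x - a, (hSm _).2 h, by ring⟩
    · rintro ⟨y, hy, rfl⟩
      rw [add_sub_cancel_right]; exact (hSm _).1 hy
  have hBS : B = S.image (fun x => x + b) := by
    ext x
    rw [hB, mem_image]
    constructor
    · intro h; exact ⟨x - b, (hSm _).2 h, by ring⟩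
    · rintro ⟨y, hy, rfl⟩
      rw [add_sub_cancel_right]; exact (hSm _).1 hy
  have hcA : A.card = S.card := by
    rw [hAS, card_image_of_injective _ (add_left_injective a)]
  have hCS : A.image (fun x => x + f x) = S.image (fun x => x + (a + b)) := by
    apply eq_of_subset_of_card_le
    · intro y hy
      rw [mem_image] at hy
      obtain ⟨x, hx, rfl⟩ := hy
      rw [mem_image]
      refine ⟨x + f x - (a + b), ?_, by ring⟩
      rw [hSm]
      have h1 := (hA x).1 hx
      have h2 := (hB (f x)).1 (by simpa using hf.mapsTo (by simpa using hx))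
      have h3 := H.add_mem h1 h2
      have h4 : x - a + (f x - b) = x + f x - (a + b) := by ring
      rwa [h4] at h3
    · rw [card_image_of_injective _ (add_left_injective (a + b)), card_image_of_injOn hinj, hcA]
  have hsumA : ∑ x ∈ A, x = ∑ x ∈ S, (x + a) := by
    rw [hAS, sum_image (fun x _ y _ h => add_right_cancel h)]
  have hsumB : ∑ x ∈ A, f x = ∑ x ∈ S, (x + b) := by
    have h1 : A.image f = B := by
      ext y
      rw [mem_image]
      constructor
      · rintro ⟨x, hx, rfl⟩
        simpa using hf.mapsTo (by simpa using hx)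
      · intro hy
        obtain ⟨x, hx, h2⟩ := hf.surjOn (by simpa using hy)
        exact ⟨x, by simpa using hx, h2⟩
    have h3 : ∑ x ∈ A, f x = ∑ y ∈ A.image f, y := by
      rw [sum_image]
      intro x hx y hy h
      exact hf.injOn hx hy h
    rw [h3, h1, hBS, sum_image (fun x _ y _ h => add_right_cancel h)]
  have hsumC : ∑ x ∈ A, (x + f x) = ∑ x ∈ S, (x + (a + b)) := by
    have h3 : ∑ x ∈ A, (x + f x) = ∑ y ∈ A.image (fun x => x + f x), y := by
      rw [sum_image]
      intro x hx y hy h
      exact hinj hx hy h
    rw [h3, hCS, sum_image (fun x _ y _ h => add_right_cancel h)]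
  rw [sum_add_distrib, hsumA, hsumB, ← sum_add_distrib] at hsumC
  have h5 : ∑ x ∈ S, (x + a + (x + b)) = ∑ x ∈ S, (x + (a + b)) + ∑ x ∈ S, x := by
    rw [← sum_add_distrib]
    exact sum_congr rfl (fun x _ => by ring)
  rw [h5, add_eq_left] at hsumC
  exact sum_subgroup_ne_zero H S hSm he hsumC

end Pool.Agent.Helper65.CYC
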