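import Pool.Agent.Helper7.CYC.OddAsm
import Pool.Agent.Helper10.CYC.PieceC
import Pool.Agent.Helper10.CYC.PieceD
import Pool.Agent.Helper73.SNC.Red
import Pool.Agent.Helper91.CYC.PieceA
import Pool.Agent.Helper91.CYC.PieceE
import Pool.Agent.Helper47.CYC.PolyF
import Pool.Agent.Helper75.CYC.PolyG
import Pool.Agent.Helper75.CYC.S2

/-!
# Snevily's problem for even cyclic groups: the final assembly

`snevily_of_core` reduces the whole theorem to the core statement for two sets of the same even
size which are both not cosets of a subgroup.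
-/

set_option autoImplicit false

namespace Pool.Agent.Helper65.CYC

open Finset Pool.Agent.Helper7.SN Pool.Agent.Helper73.SNC

/-- The odd case. -/
theorem tr_odd {n : ℕ} [NeZero n] {A B : Finset (ZMod n)} (hAB : A.card = B.card)
    (hodd : Odd A.card) : Tr A B :=
  Pool.Agent.Helper7.CYC.tr_of_odd Pool.Agent.Helper91.CYC.st_a5
    (Pool.Agent.Helper73.SNC.st_b Pool.Agent.Helper91.CYC.st_a1 Pool.Agent.Helper91.CYC.st_a2)
    Pool.Agent.Helper10.CYC.st_c Pool.Agent.Helper10.CYC.st_d Pool.Agent.Helper91.CYC.st_e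
    Pool.Agent.Helper47.CYC.st_f Pool.Agent.Helper75.CYC.st_g hAB hodd

/-- The core statement of the even case. -/
def Core : Prop := ∀ (n : ℕ) [NeZero n] (r : ℕ), 1 ≤ r → ∀ A B : Finset (ZMod n),
  A.card = 2 * r → B.card = 2 * r → ¬ Tr A B → ¬ IsCos (2 * r) A → ¬ IsCos (2 * r) B →
  CosPair A B

/-- The full theorem from the core. -/
theorem good (hc : Core) {n : ℕ} [NeZero n] (A B : Finset (ZMod n)) (hAB : A.card = B.card) :
    Tr A B ∨ CosPair A B := by
  refine Pool.Agent.Helper75.CYC.good_of_core (fun A B h ho => tr_odd h ho) ?_ A B hAB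
  intro A B hAB he hpos hA hB _
  by_cases h : Tr A B
  · exact Or.inl h
  · right
    obtain ⟨r, hr⟩ := he
    have hr2 : A.card = 2 * r := by omega
    rw [hr2] at hA hB
    exact hc n r (by omega) A B hr2 (by omega) h hA hB

/-- **S10221 from the core.** -/
theorem snevily_of_core (hc : Core) :
    ∀ n : ℕ, 0 < n → Even n →
      ∀ A B : Finset (ZMod n), A.card = B.card →
        (¬ ∃ f : ZMod n → ZMod n,
            Set.BijOn f (A : Set (ZMod n)) (B : Set (ZMod n)) ∧
            Set.InjOn (fun a => a + f a) (A : Set (ZMod n))) →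
        ∃ H : AddSubgroup (ZMod n), Even (Nat.card H) ∧
          ∃ a b : ZMod n,
            (∀ x : ZMod n, x ∈ A ↔ x - a ∈ H) ∧
            (∀ x : ZMod n, x ∈ B ↔ x - b ∈ H) := by
  intro n hn _ A B hAB h
  have : NeZero n := ⟨hn.ne'⟩
  exact (good hc A B hAB).resolve_left h

end Pool.Agent.Helper65.CYC
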