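import Mathlib

/-!
# Odd `n` from even `n`: the embedding of `Z/nZ` into `Z/2nZ`
-/

set_option autoImplicit false

namespace Pool.Agent.Helper65.CYC

open Finset

/-- Doubling, as an embedding of `Z/nZ` into `Z/2nZ`. -/
noncomputable def dbl (n : ℕ) : ZMod n →+ ZMod (2 * n) :=
  ZMod.lift n ⟨zmultiplesHom (ZMod (2 * n)) 2, by
    rw [zmultiplesHom_apply, zsmul_eq_mul]
    have h := ZMod.natCast_self (2 * n)
    push_cast at h ⊢
    linear_combination h⟩

lemma dbl_inj (n : ℕ) : Function.Injective (dbl n) := by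
  rw [dbl, ZMod.lift_injective]
  intro m hm
  rw [zmultiplesHom_apply, zsmul_eq_mul] at hm
  have h1 : ((m * 2 : ℤ) : ZMod (2 * n)) = 0 := by push_cast; exact hm
  rw [ZMod.intCast_zmod_eq_zero_iff_dvd] at h1
  rw [ZMod.intCast_zmod_eq_zero_iff_dvd]
  obtain ⟨c, hc⟩ := h1
  refine ⟨c, ?_⟩
  push_cast at hc
  linarith

/-- The odd case. -/
theorem tr_of_odd_modulus
    (hmain : ∀ n : ℕ, 0 < n → Even n →
      ∀ A B : Finset (ZMod n), A.card = B.card →
        (¬ ∃ f : ZMod n → ZMod n,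
            Set.BijOn f (A : Set (ZMod n)) (B : Set (ZMod n)) ∧
            Set.InjOn (fun a => a + f a) (A : Set (ZMod n))) →
        ∃ H : AddSubgroup (ZMod n), Even (Nat.card H) ∧
          ∃ a b : ZMod n,
            (∀ x : ZMod n, x ∈ A ↔ x - a ∈ H) ∧
            (∀ x : ZMod n, x ∈ B ↔ x - b ∈ H))
    (n : ℕ) (hn : 0 < n) (hodd : Odd n) (A B : Finset (ZMod n)) (hAB : A.card = B.card) :
    ∃ f : ZMod n → ZMod n,
      Set.BijOn f (A : Set (ZMod n)) (B : Set (ZMod n)) ∧
      Set.InjOn (fun a => a + f a) (A : Set (ZMod n)) := by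
  classical
  have : NeZero n := ⟨hn.ne'⟩
  have : NeZero (2 * n) := ⟨by omega⟩
  have hφ := dbl_inj n
  by_cases h : ∃ f : ZMod (2 * n) → ZMod (2 * n),
      Set.BijOn f ((A.image (dbl n) : Finset _) : Set (ZMod (2 * n)))
        ((B.image (dbl n) : Finset _) : Set (ZMod (2 * n))) ∧
      Set.InjOn (fun a => a + f a) ((A.image (dbl n) : Finset _) : Set (ZMod (2 * n)))
  · obtain ⟨f, hf1, hf2⟩ := h
    have hg : ∀ a ∈ A, ∃ b ∈ B, dbl n b = f (dbl n a) := by
      intro a ha
      have h1 := hf1.mapsTo (by simpa using ⟨a, ha, rfl⟩ : dbl n a ∈ _)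
      simpa using h1
    choose! g hg1 hg2 using hg
    refine ⟨g, ⟨?_, ?_, ?_⟩, ?_⟩
    · intro a ha
      simpa using hg1 a (by simpa using ha)
    · intro a ha a' ha' haa
      have ha1 : a ∈ A := by simpa using ha
      have ha1' : a' ∈ A := by simpa using ha'
      have h1 := hg2 a ha1
      have h2 := hg2 a' ha1'
      rw [haa, h2] at h1
      have h3 := hf1.injOn (by simpa using ⟨a', ha1', rfl⟩ : dbl n a' ∈ _)
        (by simpa using ⟨a, ha1, rfl⟩ : dbl n a ∈ _) h1
      exact (hφ h3).symm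
    · intro b hb
      have hb1 : b ∈ B := by simpa using hb
      obtain ⟨y, hy, h1⟩ := hf1.surjOn (by simpa using ⟨b, hb1, rfl⟩ : dbl n b ∈ _)
      have hy1 : ∃ a ∈ A, dbl n a = y := by simpa using hy
      obtain ⟨a, ha, rfl⟩ := hy1
      refine ⟨a, by simpa using ha, ?_⟩
      apply hφ
      rw [hg2 a ha, h1]
    · intro a ha a' ha' haa
      have ha1 : a ∈ A := by simpa using ha
      have ha1' : a' ∈ A := by simpa using ha'
      have h1 := congrArg (dbl n) haa
      simp only [map_add] at h1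
      rw [hg2 a ha1, hg2 a' ha1'] at h1
      exact hφ (hf2 (by simpa using ⟨a, ha1, rfl⟩ : dbl n a ∈ _)
        (by simpa using ⟨a', ha1', rfl⟩ : dbl n a' ∈ _) h1)
  · exfalso
    obtain ⟨H, he, a, b, hA, _⟩ := hmain (2 * n) (by omega) (even_two_mul n) _ _
      (by rw [card_image_of_injective _ hφ, card_image_of_injective _ hφ, hAB]) h
    have hle : H ≤ (dbl n).range := by
      intro x hx
      have h1 : a ∈ A.image (dbl n) := (hA a).2 (by rw [sub_self]; exact H.zero_mem)
      have h2 : x + a ∈ A.image (dbl n) := (hA _).2 (by rw [add_sub_cancel_right]; exact hx)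
      rw [mem_image] at h1 h2
      obtain ⟨u, _, hu⟩ := h1
      obtain ⟨v, _, hv⟩ := h2
      exact ⟨v - u, by rw [map_sub, hu, hv, add_sub_cancel_right]⟩
    have h1 := AddSubgroup.card_dvd_of_le hle
    have h2 : Nat.card (dbl n).range = n := by
      have h3 := Nat.card_congr (Equiv.ofInjective (dbl n) hφ)
      rw [Nat.card_zmod] at h3
      exact h3.symm
    rw [h2] at h1
    exact (Nat.not_even_iff_odd.2 hodd) (he.trans_dvd h1)

end Pool.Agent.Helper65.CYC
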